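import Mathlib
import Pool.Agent.Q151.Fill.CaseA

/-!
# Paracompact subspaces filling the countable subproducts

If a subspace `D` of a product of topological spaces fills all countable subproducts and is
paracompact, then all but countably many factors are compact.
-/

open Set

universe u v

namespace Pool.Agent.Results.MP_5f6599_gt.CompactFactors

open Pool.Agent.Q151.Fill

/-- Let `X i`, `i ∈ I`, be arbitrary topological spaces and let `D ⊆ ∏ X i` fill all countable
subproducts. If every open cover of `D` has a locally finite open refinement, then all but
countably many of the spaces `X i` are compact. -/
theorem result {I : Type u} {X : I → Type v} [∀ i, TopologicalSpace (X i)] (D : Set (∀ i, X i))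
    (hD : FillsCountable D) (hp : ParacompactSpace D) : {i | ¬ CompactSpace (X i)}.Countable :=
  countable_noncompact hD

end Pool.Agent.Results.MP_5f6599_gt.CompactFactors
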